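import Mathlib
import Pool.Agent.H64.Dfs3

set_option autoImplicit false

namespace Pool.Agent.Results.MP_be70a4_pr.GenericSets

open Finset Filter Topology Classical Pool.Agent.H64

/-- `φ` is `G`-rigid, the `n` points being `x 0, …, x (n-1)`. -/
def IsRigid {n : ℕ} (x : Fin n → ℝ) (G : SimpleGraph (Fin n)) (φ : Fin n → ℝ) : Prop :=
  Function.Injective φ ∧ ∀ u v, G.Adj u v → |φ u - φ v| = |x u - x v|

/-- The set `U` of points is reconstructible. -/
def Reconstructible {n : ℕ} (x : Fin n → ℝ) (G : SimpleGraph (Fin n)) (U : Finset (Fin n)) :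
    Prop :=
  ∀ φ : Fin n → ℝ, IsRigid x G φ → ∀ u ∈ U, ∀ v ∈ U, |φ u - φ v| = |x u - x v|

/-- The probability, under `G(n,p)`, of a property `E` of graphs. -/
noncomputable def prob (n : ℕ) (p : ℝ) (E : SimpleGraph (Fin n) → Prop) : ℝ :=
  ∑ G : SimpleGraph (Fin n),
    if E G then p ^ G.edgeFinset.card * (1 - p) ^ (n.choose 2 - G.edgeFinset.card) else 0

/-- With high probability. -/
def Whp (p : ℕ → ℝ) (E : ∀ n : ℕ, SimpleGraph (Fin n) → Prop) : Prop :=
  Tendsto (fun n => prob n (p n) (E n)) atTop (𝓝 1)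

/-- statement (i) with `λ = 1 + a / ln n` for the point sets `x`, with constant `c` -/
def StatementI (a c : ℝ) (x : ∀ n : ℕ, Fin n → ℝ) : Prop :=
  Whp (fun n => (1 + a / Real.log n) / n)
    (fun n G => ∃ U : Finset (Fin n), Reconstructible (x n) G U ∧
      c * (n / Real.log n ^ 2) ≤ (U.card : ℝ))

/-- statement (ii) with `λ = 1 + a / ln n` for the point sets `x` -/
def StatementII (a : ℝ) (x : ∀ n : ℕ, Fin n → ℝ) : Prop :=
  ∀ δ : ℝ, 0 < δ → Whp (fun n => (1 + a / Real.log n) / n)
    (fun n G => ∀ U : Finset (Fin n), Reconstructible (x n) G U →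
      (U.card : ℝ) ≤ δ * (n / Real.log n ^ 2))

/-- The question: there is `C > 0` such that for every `ε > 0`, (i) and (ii) hold for every
sequence of point sets. -/
def Q1 : Prop :=
  ∃ C : ℝ, 0 < C ∧ ∀ ε : ℝ, 0 < ε →
    (∀ x : ∀ n : ℕ, Fin n → ℝ, (∀ n, Function.Injective (x n)) →
      ∃ c : ℝ, 0 < c ∧ StatementI (C + ε) c x) ∧
    (∀ x : ∀ n : ℕ, Fin n → ℝ, (∀ n, Function.Injective (x n)) → StatementII (C - ε) x)

/-! ### From labels to graphs -/

/-- the graph of the positive labels -/
def toG {n : ℕ} (b : Sym2 (Fin n) → Bool) : SimpleGraph (Fin n) :=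
  SimpleGraph.fromEdgeSet {e | b e = true}

lemma toG_adj {n : ℕ} (b : Sym2 (Fin n) → Bool) (u v : Fin n) :
    (toG b).Adj u v ↔ b s(u, v) = true ∧ u ≠ v := by
  simp [toG]

lemma toG_eq_iff {n : ℕ} (b : Sym2 (Fin n) → Bool) (G : SimpleGraph (Fin n)) :
    toG b = G ↔ ∀ e ∈ (Finset.univ.filter fun e : Sym2 (Fin n) => ¬ e.IsDiag),
      b e = decide (e ∈ G.edgeFinset) := by
  constructor
  · rintro rfl e he
    rw [Finset.mem_filter] at he
    induction e using Sym2.ind with
    | _ u v =>
      have huv : u ≠ v := fun h => he.2 (by simpa using h)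
      by_cases h : b s(u, v) = true
      · rw [h]
        symm
        rw [decide_eq_true_iff, SimpleGraph.mem_edgeFinset, SimpleGraph.mem_edgeSet, toG_adj]
        exact ⟨h, huv⟩
      · have h' : b s(u, v) = false := by simpa using h
        rw [h']
        symm
        rw [decide_eq_false_iff_not, SimpleGraph.mem_edgeFinset, SimpleGraph.mem_edgeSet, toG_adj]
        exact fun hc => h hc.1
  · intro h
    ext u v
    rw [toG_adj]
    by_cases huv : u = v
    · subst huv
      simp
    · have h1 := h s(u, v) (by simp [huv])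
      rw [h1, decide_eq_true_iff, SimpleGraph.mem_edgeFinset, SimpleGraph.mem_edgeSet]
      exact ⟨fun hc => hc.1, fun hc => ⟨hc, huv⟩⟩

lemma weight_eq {n : ℕ} (p : ℝ) (G : SimpleGraph (Fin n)) :
    ∑ b : Sym2 (Fin n) → Bool, (if toG b = G then W p b else 0) =
      p ^ G.edgeFinset.card * (1 - p) ^ (n.choose 2 - G.edgeFinset.card) := by
  set F : Finset (Sym2 (Fin n)) := Finset.univ.filter fun e => ¬ e.IsDiag with hF
  have h1 : ∑ b : Sym2 (Fin n) → Bool, (if toG b = G then W p b else 0) =
      ∑ b : Sym2 (Fin n) → Bool,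
        (if ∀ e ∈ F, b e = decide (e ∈ G.edgeFinset) then W p b else 0) := by
    refine Finset.sum_congr rfl fun b _ => ?_
    by_cases h : toG b = G
    · rw [if_pos h, if_pos ((toG_eq_iff b G).mp h)]
    · rw [if_neg h, if_neg (fun hc => h ((toG_eq_iff b G).mpr hc))]
  rw [h1, cyl_prob p F (fun e => decide (e ∈ G.edgeFinset))]
  have hsub : G.edgeFinset ⊆ F := by
    intro e he
    rw [hF, Finset.mem_filter]
    exact ⟨Finset.mem_univ _, G.not_isDiag_of_mem_edgeSet (SimpleGraph.mem_edgeFinset.mp he)⟩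
  have hcard : F.card = n.choose 2 := by
    have := Sym2.card_subtype_not_diag (α := Fin n)
    rw [Fintype.card_subtype, Fintype.card_fin] at this
    rw [hF]
    convert this
  rw [← Finset.prod_sdiff hsub]
  have h2 : ∏ e ∈ F \ G.edgeFinset, bern p (decide (e ∈ G.edgeFinset)) =
      (1 - p) ^ (n.choose 2 - G.edgeFinset.card) := by
    rw [Finset.prod_congr rfl (g := fun _ => 1 - p), Finset.prod_const,
      Finset.card_sdiff_of_subset hsub, hcard]
    intro e he
    have := (Finset.mem_sdiff.mp he).2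
    simp [bern, this]
  have h3 : ∏ e ∈ G.edgeFinset, bern p (decide (e ∈ G.edgeFinset)) =
      p ^ G.edgeFinset.card := by
    rw [Finset.prod_congr rfl (g := fun _ => p), Finset.prod_const]
    intro e he
    simp [bern, he]
  rw [h2, h3, mul_comm]

lemma prob_eq {n : ℕ} (p : ℝ) (E : SimpleGraph (Fin n) → Prop) :
    prob n p E = ∑ b : Sym2 (Fin n) → Bool, (if E (toG b) then W p b else 0) := by
  unfold prob
  have h1 : ∀ G : SimpleGraph (Fin n),
      (if E G then p ^ G.edgeFinset.card * (1 - p) ^ (n.choose 2 - G.edgeFinset.card) else 0) =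
      ∑ b : Sym2 (Fin n) → Bool, (if toG b = G then (if E (toG b) then W p b else 0) else 0) := by
    intro G
    rw [← weight_eq p G]
    split_ifs with h
    · refine Finset.sum_congr rfl fun b _ => ?_
      by_cases hb : toG b = G
      · rw [if_pos hb, if_pos hb, if_pos (hb ▸ h)]
      · rw [if_neg hb, if_neg hb]
    · symm
      apply Finset.sum_eq_zero
      intro b _
      by_cases hb : toG b = G
      · rw [if_pos hb, if_neg (hb ▸ h)]
      · rw [if_neg hb]
  simp_rw [h1]
  rw [Finset.sum_comm]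
  refine Finset.sum_congr rfl fun b _ => ?_
  rw [Finset.sum_ite_eq]
  simp

/-! ### Rigidity of cycles -/

/-- A cycle is reconstructible when the points are linearly independent over the rationals. -/
lemma cycle_reconstructible {n : ℕ} (x : Fin n → ℝ) (hx : LinearIndependent ℚ x)
    (G : SimpleGraph (Fin n)) (m : ℕ) (v : ℕ → Fin n)
    (hinj : ∀ i ≤ m, ∀ j ≤ m, v i = v j → i = j) (hadj : ∀ i < m, G.Adj (v i) (v (i + 1)))
    (hclose : G.Adj (v 0) (v m)) :
    Reconstructible x G ((Finset.range (m + 1)).image v) := by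
  intro φ hφ
  obtain ⟨_, hφ⟩ := hφ
  -- signs
  have hsign : ∀ u w, G.Adj u w → ∃ σ : ℚ, (σ = 1 ∨ σ = -1) ∧ φ w - φ u = σ * (x w - x u) := by
    intro u w h
    have h1 := hφ u w h
    rcases abs_eq_abs.mp h1 with h2 | h2
    · exact ⟨1, Or.inl rfl, by push_cast; linarith⟩
    · exact ⟨-1, Or.inr rfl, by push_cast; linarith⟩
  choose! σ hσ1 hσ2 using fun i (hi : i < m) => hsign _ _ (hadj i hi)
  obtain ⟨τ, hτ1, hτ2⟩ := hsign _ _ hclose
  -- telescoping
  have htel : ∀ j ≤ m, φ (v j) - φ (v 0) =
      ∑ i ∈ Finset.range j, (σ i : ℝ) * (x (v (i + 1)) - x (v i)) := by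
    intro j hj
    rw [← Finset.sum_range_sub (fun i => φ (v i)) j]
    refine Finset.sum_congr rfl fun i hi => ?_
    exact hσ2 i (by have := Finset.mem_range.mp hi; omega)
  have hsum : ∑ i ∈ Finset.range m, ((σ i - τ : ℚ) : ℝ) * (x (v (i + 1)) - x (v i)) = 0 := by
    have h1 := htel m le_rfl
    rw [hτ2] at h1
    have h2 : ∑ i ∈ Finset.range m, (x (v (i + 1)) - x (v i)) = x (v m) - x (v 0) :=
      Finset.sum_range_sub (fun i => x (v i)) m
    have h3 : ∑ i ∈ Finset.range m, ((σ i - τ : ℚ) : ℝ) * (x (v (i + 1)) - x (v i)) =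
        ∑ i ∈ Finset.range m, (σ i : ℝ) * (x (v (i + 1)) - x (v i)) -
        τ * ∑ i ∈ Finset.range m, (x (v (i + 1)) - x (v i)) := by
      rw [Finset.mul_sum, ← Finset.sum_sub_distrib]
      refine Finset.sum_congr rfl fun i _ => ?_
      push_cast
      ring
    rw [h3, h2, ← h1]
    ring
  -- linear independence along the cycle
  have hlin : LinearIndependent ℚ (fun i : Fin (m + 1) => x (v i)) := by
    apply hx.comp (fun i : Fin (m + 1) => v i)
    intro i j hij
    exact Fin.ext (hinj i (by omega) j (by omega) hij)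
  have hall : ∀ j, j ≤ m → ∀ i, i < j → σ i = τ := by
    -- by descending coefficients: the coefficient of `x (v (i+1))`
    have key : ∀ g : ℕ → ℚ, (∑ i ∈ Finset.range (m + 1), (g i : ℝ) * x (v i) = 0) →
        ∀ i ≤ m, g i = 0 := by
      intro g hg i hi
      have h1 : ∑ i : Fin (m + 1), (g i) • x (v i) = 0 := by
        rw [Fin.sum_univ_eq_sum_range (fun i => (g i) • x (v i)) (m + 1)]
        simpa [Rat.smul_def] using hg
      have := Fintype.linearIndependent_iff.mp hlin (fun i => g i) h1 ⟨i, by omega⟩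
      simpa using this
    -- summation by parts
    have hparts : ∀ (d : ℕ → ℚ) (k : ℕ),
        ∑ i ∈ Finset.range k, (d i : ℝ) * (x (v (i + 1)) - x (v i)) =
        ∑ i ∈ Finset.range (k + 1),
          (((if i = 0 then 0 else d (i - 1)) - (if i = k then 0 else d i) : ℚ) : ℝ) * x (v i) := by
      intro d k
      have h1 : ∑ i ∈ Finset.range k, (d i : ℝ) * (x (v (i + 1)) - x (v i)) =
          ∑ i ∈ Finset.range k, (d i : ℝ) * x (v (i + 1)) -
          ∑ i ∈ Finset.range k, (d i : ℝ) * x (v i) := by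
        rw [← Finset.sum_sub_distrib]
        exact Finset.sum_congr rfl fun i _ => by ring
      have h2 : ∑ i ∈ Finset.range (k + 1),
          (((if i = 0 then 0 else d (i - 1)) - (if i = k then 0 else d i) : ℚ) : ℝ) * x (v i) =
          ∑ i ∈ Finset.range (k + 1), ((if i = 0 then 0 else d (i - 1) : ℚ) : ℝ) * x (v i) -
          ∑ i ∈ Finset.range (k + 1), ((if i = k then 0 else d i : ℚ) : ℝ) * x (v i) := by
        rw [← Finset.sum_sub_distrib]
        refine Finset.sum_congr rfl fun i _ => ?_
        rw [Rat.cast_sub]; ring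
      rw [h1, h2]
      congr 1
      · rw [Finset.sum_range_succ']
        simp
      · rw [Finset.sum_range_succ]
        simp only [if_true, Rat.cast_zero, zero_mul, add_zero]
        refine Finset.sum_congr rfl fun i hi => ?_
        have : i ≠ k := by have := Finset.mem_range.mp hi; omega
        rw [if_neg this]
    have hz := hparts (fun i => σ i - τ) m
    rw [hsum] at hz
    have hcoef := key _ hz.symm
    -- induction
    have hind : ∀ i, i < m → σ i - τ = 0 := by
      intro i
      induction i with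
      | zero =>
        intro hi
        have := hcoef 0 (by omega)
        have hne : (0:ℕ) ≠ m := by omega
        rw [if_pos rfl, if_neg hne] at this
        linarith
      | succ i ih =>
        intro hi
        have h1 := ih (by omega)
        have := hcoef (i + 1) (by omega)
        have hne : i + 1 ≠ m := by omega
        rw [if_neg (by omega), if_neg hne, Nat.add_sub_cancel, h1] at this
        linarith
    intro j hj i hi
    have := hind i (by omega)
    linarith
  -- conclusion
  have hmain : ∀ j ≤ m, φ (v j) - φ (v 0) = τ * (x (v j) - x (v 0)) := by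
    intro j hj
    rw [htel j hj]
    rw [← Finset.sum_range_sub (fun i => x (v i)) j, Finset.mul_sum]
    refine Finset.sum_congr rfl fun i hi => ?_
    rw [hall j hj i (Finset.mem_range.mp hi)]
  intro u hu w hw
  obtain ⟨i, hi, rfl⟩ := Finset.mem_image.mp hu
  obtain ⟨j, hj, rfl⟩ := Finset.mem_image.mp hw
  have hi' := Finset.mem_range.mp hi
  have hj' := Finset.mem_range.mp hj
  have h1 := hmain i (by omega)
  have h2 := hmain j (by omega)
  have h3 : φ (v i) - φ (v j) = τ * (x (v i) - x (v j)) := by linarith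
  rw [h3, abs_mul]
  rcases hτ1 with h | h <;> rw [h] <;> simp

lemma longCycle_reconstructible {n : ℕ} (x : Fin n → ℝ) (hx : LinearIndependent ℚ x) {k : ℕ}
    (hk : 0 < k) {b : Sym2 (Fin n) → Bool} (h : LongCycle k b) :
    ∃ U : Finset (Fin n), Reconstructible x (toG b) U ∧ k + 1 ≤ U.card := by
  obtain ⟨m, v, hkm, hinj, hch, hcl⟩ := h
  refine ⟨(Finset.range (m + 1)).image v, ?_, ?_⟩
  · apply cycle_reconstructible x hx (toG b) m v hinj
    · intro i hi
      rw [toG_adj]
      refine ⟨hch i hi, fun hc => ?_⟩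
      have := hinj i (by omega) (i + 1) (by omega) hc
      omega
    · rw [toG_adj]
      refine ⟨hcl, fun hc => ?_⟩
      have := hinj 0 (by omega) m le_rfl hc
      omega
  · rw [Finset.card_image_of_injOn, Finset.card_range]
    · omega
    · intro i hi j hj hij
      have hi' := Finset.mem_range.mp (Finset.mem_coe.mp hi)
      have hj' := Finset.mem_range.mp (Finset.mem_coe.mp hj)
      exact hinj i (by omega) j (by omega) hij

/-! ### Probability bounds -/

lemma prob_le_one {n : ℕ} {p : ℝ} (h0 : 0 ≤ p) (h1 : p ≤ 1) (E : SimpleGraph (Fin n) → Prop) :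
    prob n p E ≤ 1 := by
  rw [prob_eq, ← sum_W (ι := Sym2 (Fin n)) p]
  refine Finset.sum_le_sum fun b _ => ?_
  split_ifs
  · exact le_rfl
  · exact W_nonneg h0 h1 b

lemma prob_add_le {n : ℕ} {p : ℝ} (h0 : 0 ≤ p) (h1 : p ≤ 1) (E E' : SimpleGraph (Fin n) → Prop)
    (h : ∀ G, E G → ¬ E' G) : prob n p E + prob n p E' ≤ 1 := by
  rw [prob_eq, prob_eq, ← sum_W (ι := Sym2 (Fin n)) p, ← Finset.sum_add_distrib]
  refine Finset.sum_le_sum fun b _ => ?_
  have := W_nonneg h0 h1 b
  by_cases hE : E (toG b)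
  · rw [if_pos hE, if_neg (h _ hE)]; simp
  · rw [if_neg hE]
    split_ifs <;> simp [this]

lemma prob_ge {n : ℕ} (ε : ℝ) (hε0 : 0 < ε) (hε1 : ε ≤ 1 / 10) (hn : 12 ≤ n)
    (hεn : 120 ≤ ε ^ 2 * n) (x : Fin n → ℝ) (hx : LinearIndependent ℚ x) :
    1 - (220 / (ε ^ 3 * n) + Real.exp (-(ε ^ 5 * n / 14400))) ≤
      prob n ((1 + 2 * ε) / n) (fun G => ∃ U : Finset (Fin n), Reconstructible x G U ∧
        ε ^ 2 * n / 60 ≤ (U.card : ℝ)) := by
  have hn0 : (0:ℝ) < n := by
    have : 0 < n := by omega
    exact_mod_cast this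
  have hn12 : (12:ℝ) ≤ n := by exact_mod_cast hn
  set k : ℕ := ⌊ε ^ 2 * n / 60⌋₊ with hk
  have hkpos : 0 < k := by
    rw [hk]
    apply Nat.floor_pos.mpr
    linarith
  have h1 := longCycle_prob n ε hε0 hε1 hn hεn k hk
  have hp0 : 0 ≤ (1 + 2 * ε) / (n:ℝ) := by positivity
  have hp1 : (1 + 2 * ε) / (n:ℝ) ≤ 1 := by
    rw [div_le_one hn0]; linarith
  rw [prob_eq]
  generalize hp : (1 + 2 * ε) / (n:ℝ) = p at h1 hp0 hp1 ⊢
  have h2 : 1 ≤ ∑ b : Sym2 (Fin n) → Bool, (if LongCycle k b then 0 else W p b) +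
      ∑ b : Sym2 (Fin n) → Bool, (if (∃ U : Finset (Fin n), Reconstructible x (toG b) U ∧
        ε ^ 2 * n / 60 ≤ (U.card : ℝ)) then W p b else 0) := by
    rw [← sum_W (ι := Sym2 (Fin n)) p, ← Finset.sum_add_distrib]
    refine Finset.sum_le_sum fun b _ => ?_
    have hW := W_nonneg hp0 hp1 b
    by_cases hb : LongCycle k b
    · obtain ⟨U, hU1, hU2⟩ := longCycle_reconstructible x hx hkpos hb
      have hU : ∃ U : Finset (Fin n), Reconstructible x (toG b) U ∧
          ε ^ 2 * n / 60 ≤ (U.card : ℝ) := by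
        refine ⟨U, hU1, ?_⟩
        have h3 : ε ^ 2 * n / 60 < (k:ℝ) + 1 := by
          rw [hk]; exact Nat.lt_floor_add_one _
        have h4 : ((k + 1 : ℕ) : ℝ) ≤ U.card := by exact_mod_cast hU2
        push_cast at h4
        linarith
      rw [if_pos hb, if_pos hU]
      linarith
    · rw [if_neg hb]
      split_ifs
      · linarith
      · linarith
  have h1' : ∑ b : Sym2 (Fin n) → Bool, (if LongCycle k b then 0 else W p b) ≤
      220 / (ε ^ 3 * n) + Real.exp (-(ε ^ 5 * n / 14400)) := by
    convert h1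
  have h4 := add_le_add_left h1' (∑ b : Sym2 (Fin n) → Bool,
    (if (∃ U : Finset (Fin n), Reconstructible x (toG b) U ∧
        ε ^ 2 * n / 60 ≤ (U.card : ℝ)) then W p b else 0))
  have h5 := le_trans h2 (by convert h4 using 1)
  have h6 : 1 - (220 / (ε ^ 3 * n) + Real.exp (-(ε ^ 5 * n / 14400))) ≤
      ∑ b : Sym2 (Fin n) → Bool, (if (∃ U : Finset (Fin n), Reconstructible x (toG b) U ∧
        ε ^ 2 * n / 60 ≤ (U.card : ℝ)) then W p b else 0) := by
    linarith
  convert h6

lemma tendsto_log_pow_div (k : ℕ) :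
    Tendsto (fun n : ℕ => Real.log n ^ k / n) atTop (𝓝 0) := by
  have h := (Real.isLittleO_pow_log_id_atTop (n := k)).tendsto_div_nhds_zero
  exact h.comp tendsto_natCast_atTop_atTop

/-- Generic point sets: large reconstructible sets exist for every `a > 0`. -/
theorem generic (a : ℝ) (ha : 0 < a) (x : ∀ n : ℕ, Fin n → ℝ)
    (hx : ∀ n, LinearIndependent ℚ (x n)) : StatementI a (a ^ 2 / 240) x := by
  unfold StatementI Whp
  have hlog : Tendsto (fun n : ℕ => Real.log n) atTop atTop :=
    Real.tendsto_log_atTop.comp tendsto_natCast_atTop_atTop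
  -- the lower bound
  have hlow : Tendsto (fun n : ℕ => 1 - (220 * 8 / a ^ 3 * (Real.log n ^ 3 / n) +
      Real.exp (-(a ^ 5 / 32 / 14400 * (Real.log n ^ 5 / n)⁻¹)))) atTop (𝓝 1) := by
    have h1 : Tendsto (fun n : ℕ => 220 * 8 / a ^ 3 * (Real.log n ^ 3 / n)) atTop (𝓝 0) := by
      simpa using (tendsto_log_pow_div 3).const_mul (220 * 8 / a ^ 3)
    have h2 : Tendsto (fun n : ℕ => (Real.log n ^ 5 / n)⁻¹) atTop atTop := by
      apply Tendsto.inv_tendsto_nhdsGT_zero
      rw [tendsto_nhdsWithin_iff]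
      refine ⟨tendsto_log_pow_div 5, ?_⟩
      filter_upwards [hlog.eventually_gt_atTop 0, eventually_gt_atTop 0] with n hn hn0
      have : (0:ℝ) < n := by exact_mod_cast hn0
      exact Set.mem_Ioi.mpr (by positivity)
    have h3 : Tendsto (fun n : ℕ => Real.exp (-(a ^ 5 / 32 / 14400 * (Real.log n ^ 5 / n)⁻¹)))
        atTop (𝓝 0) := by
      apply Real.tendsto_exp_atBot.comp
      apply tendsto_neg_atTop_atBot.comp
      exact h2.const_mul_atTop (by positivity)
    have h4 := (h1.add h3).const_sub 1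
    simpa using h4
  refine tendsto_of_tendsto_of_tendsto_of_le_of_le' hlow tendsto_const_nhds ?_ ?_
  · have e1 : ∀ᶠ n : ℕ in atTop, 5 * a + 1 ≤ Real.log n := hlog.eventually_ge_atTop _
    have e2 : ∀ᶠ n : ℕ in atTop, Real.log n ^ 2 / n < a ^ 2 / 480 :=
      (tendsto_log_pow_div 2).eventually_lt_const (by positivity)
    filter_upwards [e1, e2, eventually_ge_atTop 12] with n h1 h2 h3
    have hL : 0 < Real.log n := by linarith
    have hn0 : (0:ℝ) < n := by
      have : 0 < n := by omega
      exact_mod_cast this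
    have h4 := prob_ge (n := n) (a / (2 * Real.log n)) (by positivity) (by
      rw [div_le_iff₀ (by positivity)]
      linarith) h3 (by
      rw [div_lt_div_iff₀ hn0 (by norm_num)] at h2
      rw [div_pow, div_mul_eq_mul_div, le_div_iff₀ (by positivity)]
      nlinarith) (x n) (hx n)
    have h5 : (1 + 2 * (a / (2 * Real.log n))) / (n:ℝ) = (1 + a / Real.log n) / n := by
      congr 1
      field_simp
    have h6 : (a / (2 * Real.log n)) ^ 2 * n / 60 = a ^ 2 / 240 * (n / Real.log n ^ 2) := by
      field_simp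
      ring
    have h7 : 220 / ((a / (2 * Real.log n)) ^ 3 * n) = 220 * 8 / a ^ 3 * (Real.log n ^ 3 / n) := by
      field_simp
      ring
    have h8 : (a / (2 * Real.log n)) ^ 5 * n / 14400 =
        a ^ 5 / 32 / 14400 * (Real.log n ^ 5 / n)⁻¹ := by
      field_simp
      ring
    rw [h5, h6, h7, h8] at h4
    exact h4
  · filter_upwards [hlog.eventually_ge_atTop a, eventually_ge_atTop 12,
      hlog.eventually_gt_atTop 0] with n h1 h2 h3
    have hn0 : (12:ℝ) ≤ n := by exact_mod_cast h2
    apply prob_le_one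
    · positivity
    · rw [div_le_one (by linarith)]
      have : a / Real.log n ≤ 1 := by
        rw [div_le_one h3]; exact h1
      linarith

/-- (i) for a point set contradicts (ii) for it. -/
lemma not_both (a c : ℝ) (ha : 0 < a) (hc : 0 < c) (x : ∀ n : ℕ, Fin n → ℝ)
    (h1 : StatementI a c x) : ¬ StatementII a x := by
  intro h2
  have h3 := h2 (c / 2) (by positivity)
  unfold StatementI at h1
  unfold Whp at h1 h3
  have h4 := h1.add h3
  have hlog : Tendsto (fun n : ℕ => Real.log n) atTop atTop :=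
    Real.tendsto_log_atTop.comp tendsto_natCast_atTop_atTop
  have h5 : ∀ᶠ n : ℕ in atTop, prob n ((1 + a / Real.log n) / n)
      (fun G => ∃ U : Finset (Fin n), Reconstructible (x n) G U ∧
        c * (n / Real.log n ^ 2) ≤ (U.card : ℝ)) + prob n ((1 + a / Real.log n) / n)
      (fun G => ∀ U : Finset (Fin n), Reconstructible (x n) G U →
        (U.card : ℝ) ≤ c / 2 * (n / Real.log n ^ 2)) ≤ 1 := by
    filter_upwards [hlog.eventually_ge_atTop a, eventually_ge_atTop 12,
      hlog.eventually_gt_atTop 0] with n h1 h2 h3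
    have hn0 : (12:ℝ) ≤ n := by exact_mod_cast h2
    apply prob_add_le
    · positivity
    · rw [div_le_one (by linarith)]
      have : a / Real.log n ≤ 1 := by
        rw [div_le_one h3]; exact h1
      linarith
    · rintro G ⟨U, hU1, hU2⟩ hall
      have h6 := hall U hU1
      have h7 : 0 < c * (n / Real.log n ^ 2) := by positivity
      linarith
  have h6 := le_of_tendsto h4 h5
  norm_num at h6

lemma exists_indep (n : ℕ) : ∃ f : Fin n → ℝ, LinearIndependent ℚ f := by
  apply exists_linearIndependent_of_le_rank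
  rw [Real.rank_rat_real]
  exact (Cardinal.nat_lt_continuum n).le

/-- The answer to the question as posed (for every sequence of point sets) is no.  Indeed, for
every `a > 0` and every sequence of point sets that are linearly independent over `ℚ`, whp
`G(V, (1 + a / ln n) / n)` has a reconstructible subset of size at least `(a² / 240) n / ln² n`;
so (ii) fails for every `C > 0`. -/
theorem result :
    ¬ Q1 ∧ ∀ a : ℝ, 0 < a → ∀ x : ∀ n : ℕ, Fin n → ℝ, (∀ n, LinearIndependent ℚ (x n)) →
      StatementI a (a ^ 2 / 240) x := by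
  refine ⟨?_, generic⟩
  rintro ⟨C, hC, hQ⟩
  choose x hx using exists_indep
  have h2 := (hQ (C / 2) (by positivity)).2 x (fun n => (hx n).injective)
  have h3 : C - C / 2 = C / 2 := by ring
  rw [h3] at h2
  exact not_both (C / 2) _ (by positivity) (by positivity) x
    (generic (C / 2) (by positivity) x hx) h2

end Pool.Agent.Results.MP_be70a4_pr.GenericSets
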